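import Pool.Agent.Helper71.TA.Main
import Pool.Agent.Helper56.FU.Fin

/-!
# Project DG (MP_d629b1_an, n = 2): the degree of a dilation with non-real eigenvalues

Let `A` be a real `2 × 2` matrix with non-real eigenvalues, no power of which is rational. If the lattices `B ^ j ℤ²`
have a tetrahedral configuration and the exponents of the lattices which meet `ℤ²` generate `ℤ`, then either `A`
satisfies a cubic equation over `ℚ`, or `A ^ c` and `A ^ d` are rational combinations of `1` and `A ^ b` for distinct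
nonzero integers `b, c, d`.
-/

set_option autoImplicit false

open scoped Matrix
open Pool.Agent.Helper71.TA Pool.Agent.Helper56.WV Wav

noncomputable section

namespace Pool.Agent.Helper71.DG

/-- A linear map from the plane to the complex numbers which turns `B` into the multiplication by `β`. -/
def ph (B : Matrix (Fin 2) (Fin 2) ℝ) (β : ℂ) (x : Fin 2 → ℝ) : ℂ :=
  (B 1 0 : ℂ) * (x 0 : ℂ) + (β - (B 0 0 : ℂ)) * (x 1 : ℂ)

section

variable {B : Matrix (Fin 2) (Fin 2) ℝ} {β : ℂ}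

theorem ph_mul (hq : β ^ 2 = (B.trace : ℂ) * β - (B.det : ℂ)) (x : Fin 2 → ℝ) :
    ph B β (B *ᵥ x) = β * ph B β x := by
  rw [Matrix.trace_fin_two, Matrix.det_fin_two] at hq
  unfold ph
  rw [mv, mv]
  push_cast at hq ⊢
  linear_combination (-(x 1 : ℂ)) * hq

theorem ph_ne (hq : β ^ 2 = (B.trace : ℂ) * β - (B.det : ℂ)) (him : β.im ≠ 0) {x : Fin 2 → ℝ}
    (hx : x ≠ 0) : ph B β x ≠ 0 := by
  intro h
  have h10 : B 1 0 ≠ 0 := by
    intro h0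
    rw [Matrix.trace_fin_two, Matrix.det_fin_two, h0] at hq
    have h1 : (β - (B 0 0 : ℂ)) * (β - (B 1 1 : ℂ)) = 0 := by
      push_cast at hq
      linear_combination hq
    rcases mul_eq_zero.1 h1 with h2 | h2
    · apply him
      rw [sub_eq_zero.1 h2, Complex.ofReal_im]
    · apply him
      rw [sub_eq_zero.1 h2, Complex.ofReal_im]
  have h1 : x 1 = 0 := by
    have := congrArg Complex.im h
    simp [ph] at this
    exact this.resolve_left him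
  have h0 : x 0 = 0 := by
    unfold ph at h
    rw [h1, Complex.ofReal_zero, mul_zero, add_zero] at h
    have := (mul_eq_zero.1 h).resolve_left (by exact_mod_cast h10)
    exact_mod_cast this
  apply hx
  ext i
  fin_cases i
  · exact h0
  · exact h1

theorem ph_pow (hq : β ^ 2 = (B.trace : ℂ) * β - (B.det : ℂ)) (n : ℕ) (x : Fin 2 → ℝ) :
    ph B β (B ^ n *ᵥ x) = β ^ n * ph B β x := by
  induction n with
  | zero => simp
  | succ n ih =>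
    rw [pow_succ', ← Matrix.mulVec_mulVec, ph_mul hq, ih, pow_succ']
    ring

theorem ph_zpow (hq : β ^ 2 = (B.trace : ℂ) * β - (B.det : ℂ)) (him : β.im ≠ 0) (hB : B.det ≠ 0)
    (j : ℤ) (x : Fin 2 → ℝ) : ph B β (B ^ j *ᵥ x) = β ^ j * ph B β x := by
  have hβ : β ≠ 0 := by
    rintro rfl
    exact him Complex.zero_im
  have hu : IsUnit B.det := isUnit_iff_ne_zero.2 hB
  obtain ⟨n, rfl | rfl⟩ := j.eq_nat_or_neg
  · rw [zpow_natCast, zpow_natCast, ph_pow hq]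
  · have h1 : B ^ n *ᵥ (B ^ (-(n : ℤ)) *ᵥ x) = x := by
      rw [← zpow_natCast, Matrix.mulVec_mulVec, ← Matrix.zpow_add hu, add_neg_cancel, zpow_zero,
        Matrix.one_mulVec]
    have h2 := ph_pow hq n (B ^ (-(n : ℤ)) *ᵥ x)
    rw [h1] at h2
    rw [h2, zpow_neg, zpow_natCast, inv_mul_cancel_left₀ (pow_ne_zero n hβ)]

theorem zc_ne {x : Fin 2 → ℤ} (hx : x ≠ 0) : zc x ≠ 0 := by
  intro h
  apply hx
  ext i
  have := congrFun h i
  simpa [zc] using this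

/-- All integer vectors in terms of `y₁` and `B ^ b y₁ = x₁`. -/
theorem coord (hq : β ^ 2 = (B.trace : ℂ) * β - (B.det : ℂ)) (him : β.im ≠ 0) (hB : B.det ≠ 0)
    (hβ : ∀ j : ℤ, j ≠ 0 → ∀ ρ : ℚ, β ^ j ≠ (ρ : ℂ)) {b : ℤ} (hb : b ≠ 0) {x₁ y₁ : Fin 2 → ℤ}
    (e₁ : B ^ b *ᵥ zc y₁ = zc x₁) (hy₁ : y₁ ≠ 0) :
    (y₁ 0 : ℝ) * x₁ 1 - y₁ 1 * x₁ 0 ≠ 0 ∧ ∀ z : Fin 2 → ℤ, ∃ α α' : ℚ,
      (∀ i, (z i : ℝ) = α * y₁ i + α' * x₁ i) ∧
      ph B β (zc z) = ph B β (zc y₁) * ((α : ℂ) + (α' : ℂ) * β ^ b) := by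
  have hv : ph B β (zc y₁) ≠ 0 := ph_ne hq him (zc_ne hy₁)
  have ht : ph B β (zc x₁) = β ^ b * ph B β (zc y₁) := by rw [← e₁, ph_zpow hq him hB]
  have hβ0 : β ≠ 0 := by
    rintro rfl
    exact him Complex.zero_im
  have hx₁ : x₁ ≠ 0 := by
    rintro rfl
    have : ph B β (zc (0 : Fin 2 → ℤ)) = 0 := by simp [ph, zc]
    rw [this] at ht
    exact mul_ne_zero (zpow_ne_zero b hβ0) hv ht.symm
  have hD : (y₁ 0 : ℝ) * x₁ 1 - y₁ 1 * x₁ 0 ≠ 0 := by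
    intro h0
    have h1 : cr (zc y₁) (zc x₁) = 0 := by
      unfold cr zc
      exact h0
    obtain ⟨m, n, hm, hn, hmn⟩ := common hy₁ hx₁ h1
    have h2 : (m : ℂ) * ph B β (zc y₁) = (n : ℂ) * ph B β (zc x₁) := by
      have h3 : ∀ i, (m : ℝ) * y₁ i = (n : ℝ) * x₁ i := by
        intro i
        have := congrFun hmn i
        simp only [Pi.smul_apply, smul_eq_mul] at this
        exact_mod_cast this
      have h4 : (m : ℂ) * (y₁ 0 : ℂ) = (n : ℂ) * (x₁ 0 : ℂ) := by exact_mod_cast h3 0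
      have h5 : (m : ℂ) * (y₁ 1 : ℂ) = (n : ℂ) * (x₁ 1 : ℂ) := by exact_mod_cast h3 1
      simp only [ph, zc]
      push_cast
      linear_combination (B 1 0 : ℂ) * h4 + (β - (B 0 0 : ℂ)) * h5
    rw [ht] at h2
    have hn' : (n : ℂ) ≠ 0 := by exact_mod_cast hn
    have h6 : β ^ b = ((m / n : ℚ) : ℂ) := by
      push_cast
      rw [eq_div_iff hn']
      apply mul_right_cancel₀ hv
      linear_combination -h2
    exact hβ b hb _ h6
  refine ⟨hD, fun z => ?_⟩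
  have hDq : ((y₁ 0 : ℚ) * x₁ 1 - y₁ 1 * x₁ 0) ≠ 0 := by
    intro h
    apply hD
    have : (((y₁ 0 : ℚ) * x₁ 1 - y₁ 1 * x₁ 0 : ℚ) : ℝ) = 0 := by rw [h]; simp
    push_cast at this
    exact this
  obtain ⟨α, hα⟩ : ∃ α : ℚ, α = ((z 0 : ℚ) * x₁ 1 - z 1 * x₁ 0) / (y₁ 0 * x₁ 1 - y₁ 1 * x₁ 0) :=
    ⟨_, rfl⟩
  obtain ⟨α', hα'⟩ : ∃ α' : ℚ, α' = ((y₁ 0 : ℚ) * z 1 - y₁ 1 * z 0) / (y₁ 0 * x₁ 1 - y₁ 1 * x₁ 0) :=
    ⟨_, rfl⟩
  have k : ∀ i, (z i : ℚ) = α * y₁ i + α' * x₁ i := by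
    intro i
    rw [hα, hα', div_mul_eq_mul_div, div_mul_eq_mul_div, ← add_div, eq_div_iff hDq]
    fin_cases i
    · simp only [Fin.zero_eta]
      ring
    · simp only [Fin.mk_one]
      ring
  refine ⟨α, α', fun i => by exact_mod_cast k i, ?_⟩
  have k0 : (z 0 : ℂ) = α * y₁ 0 + α' * x₁ 0 := by exact_mod_cast k 0
  have k1 : (z 1 : ℂ) = α * y₁ 1 + α' * x₁ 1 := by exact_mod_cast k 1
  have e : ph B β (zc z) = (α : ℂ) * ph B β (zc y₁) + (α' : ℂ) * ph B β (zc x₁) := by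
    simp only [ph, zc]
    push_cast
    rw [k0, k1]
    ring
  rw [e, ht]
  ring

/-- One triple. -/
theorem core (hq : β ^ 2 = (B.trace : ℂ) * β - (B.det : ℂ)) (him : β.im ≠ 0) (hB : B.det ≠ 0)
    (hβ : ∀ j : ℤ, j ≠ 0 → ∀ ρ : ℚ, β ^ j ≠ (ρ : ℂ)) {b c : ℤ} (hb : b ≠ 0)
    {x₁ y₁ x₂ y₂ p q : Fin 2 → ℤ} (e₁ : B ^ b *ᵥ zc y₁ = zc x₁) (e₂ : B ^ c *ᵥ zc y₂ = zc x₂)
    (e₃ : B ^ b *ᵥ zc p = B ^ c *ᵥ zc q) (hy₁ : y₁ ≠ 0) (hyq : cr (zc y₂) (zc q) ≠ 0) :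
    (∃ r₀ r₁ r₂ : ℚ, (β ^ b) ^ 3 = (r₀ : ℂ) + (r₁ : ℂ) * β ^ b + (r₂ : ℂ) * (β ^ b) ^ 2) ∨
    ∃ s₀ s₁ : ℚ, β ^ c = (s₀ : ℂ) + (s₁ : ℂ) * β ^ b := by
  obtain ⟨hD, hco⟩ := coord hq him hB hβ hb e₁ hy₁
  have hv : ph B β (zc y₁) ≠ 0 := ph_ne hq him (zc_ne hy₁)
  obtain ⟨α, α', hα, ka⟩ := hco y₂
  obtain ⟨κ, κ', -, kk⟩ := hco x₂
  obtain ⟨π, π', -, kp⟩ := hco p
  obtain ⟨χ, χ', hχ, kx⟩ := hco q
  obtain ⟨t, ht⟩ : ∃ t, t = β ^ b := ⟨_, rfl⟩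
  obtain ⟨s, hs⟩ : ∃ s, s = β ^ c := ⟨_, rfl⟩
  have h2 : s * ((α : ℂ) + α' * t) = κ + κ' * t := by
    have := congrArg (ph B β) e₂
    rw [ph_zpow hq him hB, ka, kk, ← hs, ← ht] at this
    apply mul_left_cancel₀ hv
    linear_combination this
  have h3 : t * ((π : ℂ) + π' * t) = s * (χ + χ' * t) := by
    have := congrArg (ph B β) e₃
    rw [ph_zpow hq him hB, ph_zpow hq him hB, kp, kx, ← hs, ← ht] at this
    apply mul_left_cancel₀ hv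
    linear_combination this
  have hΔ : α * χ' - α' * χ ≠ 0 := by
    intro h0
    apply hyq
    have h0' : (α : ℝ) * χ' - α' * χ = 0 := by exact_mod_cast h0
    simp only [cr, zc]
    rw [hα 0, hα 1, hχ 0, hχ 1]
    linear_combination ((y₁ 0 : ℝ) * x₁ 1 - y₁ 1 * x₁ 0) * h0'
  have hΔ' : ((α : ℂ) * χ' - α' * χ) ≠ 0 := by exact_mod_cast hΔ
  rw [← hs, ← ht]
  have h4 : s * ((α : ℂ) * χ' - α' * χ) = χ' * κ + (χ' * κ' - α' * π) * t - α' * π' * t ^ 2 := by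
    linear_combination (χ' : ℂ) * h2 + (α' : ℂ) * h3
  have h5 : s * t * ((α : ℂ) * χ' - α' * χ) =
      -(χ * κ) + (α * π - χ * κ') * t + α * π' * t ^ 2 := by
    linear_combination (-(α : ℂ)) * h3 - (χ : ℂ) * h2
  by_cases h6 : α' * π' = 0
  · right
    have h6' : (α' : ℂ) * π' = 0 := by exact_mod_cast h6
    refine ⟨χ' * κ / (α * χ' - α' * χ), (χ' * κ' - α' * π) / (α * χ' - α' * χ), ?_⟩
    have h7 : s = ((χ' : ℂ) * κ + (χ' * κ' - α' * π) * t) / (α * χ' - α' * χ) := by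
      rw [eq_div_iff hΔ']
      linear_combination h4 - t ^ 2 * h6'
    rw [h7]
    push_cast
    ring
  · left
    have h6' : (α' : ℂ) * π' ≠ 0 := by exact_mod_cast h6
    refine ⟨χ * κ / (α' * π'), (χ' * κ - (α * π - χ * κ')) / (α' * π'),
      ((χ' * κ' - α' * π) - α * π') / (α' * π'), ?_⟩
    have h7 : t ^ 3 = ((χ : ℂ) * κ + (χ' * κ - (α * π - χ * κ')) * t +
        ((χ' * κ' - α' * π) - α * π') * t ^ 2) / (α' * π') := by
      rw [eq_div_iff h6']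
      linear_combination t * h4 - h5
    rw [h7]
    push_cast
    ring

end

end Pool.Agent.Helper71.DG
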