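import Pool.Agent.Helper71.DG.Core

/-!
# Project DG: field theory and the transfer to matrices
-/

set_option autoImplicit false

open scoped Matrix
open Polynomial

noncomputable section

namespace Pool.Agent.Helper71.DG

/-- A field of degree at most three contains only roots of monic cubic polynomials. -/
theorem cubic_of_mem {F : IntermediateField ℚ ℂ} [FiniteDimensional ℚ F]
    (hF : Module.finrank ℚ F ≤ 3) {β : ℂ} (hβ : β ∈ F) :
    ∃ v w u : ℚ, β ^ 3 + (v : ℂ) * β ^ 2 + (w : ℂ) * β = (u : ℂ) := by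
  obtain ⟨P, hP⟩ : ∃ P, P = minpoly ℚ (⟨β, hβ⟩ : F) := ⟨_, rfl⟩
  have hint : IsIntegral ℚ (⟨β, hβ⟩ : F) := Algebra.IsIntegral.isIntegral _
  have hmon : P.Monic := by rw [hP]; exact minpoly.monic hint
  have hdeg : P.natDegree ≤ 3 := by
    rw [hP]
    exact (minpoly.natDegree_le _).trans hF
  have h0 : aeval β P = 0 := by
    have h1 : aeval (⟨β, hβ⟩ : F) P = 0 := by rw [hP]; exact minpoly.aeval _ _
    have h2 := congrArg (algebraMap F ℂ) h1
    rw [map_zero, ← aeval_algebraMap_apply] at h2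
    exact h2
  obtain ⟨Q, hQ⟩ : ∃ Q, Q = X ^ (3 - P.natDegree) * P := ⟨_, rfl⟩
  have hQm : Q.Monic := by rw [hQ]; exact (monic_X_pow _).mul hmon
  have hQd : Q.natDegree = 3 := by
    rw [hQ, (monic_X_pow _).natDegree_mul hmon, natDegree_X_pow]
    omega
  have hQ0 : aeval β Q = 0 := by rw [hQ, map_mul, h0, mul_zero]
  have hc3 : Q.coeff 3 = 1 := by rw [← hQd]; exact hQm.coeff_natDegree
  rw [aeval_eq_sum_range, hQd] at hQ0
  simp only [Finset.sum_range_succ, Finset.sum_range_zero, hc3, Algebra.smul_def, zero_add,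
    pow_zero, mul_one, pow_one, eq_ratCast, Rat.cast_one, one_mul] at hQ0
  refine ⟨Q.coeff 2, Q.coeff 1, -Q.coeff 0, ?_⟩
  push_cast
  linear_combination hQ0

/-- The field generated by the root of a cubic equation has degree at most three. -/
theorem adjoin_le {t : ℂ} {r₀ r₁ r₂ : ℚ}
    (h : t ^ 3 = (r₀ : ℂ) + (r₁ : ℂ) * t + (r₂ : ℂ) * t ^ 2) :
    FiniteDimensional ℚ (IntermediateField.adjoin ℚ {t}) ∧
      Module.finrank ℚ (IntermediateField.adjoin ℚ {t}) ≤ 3 := by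
  obtain ⟨P, hP⟩ : ∃ P : ℚ[X], P = X ^ 3 - C r₂ * X ^ 2 - C r₁ * X - C r₀ := ⟨_, rfl⟩
  have hd : P.natDegree = 3 := by rw [hP]; compute_degree!
  have hm : P.Monic := by rw [hP]; monicity!
  have hz : aeval t P = 0 := by
    rw [hP]
    simp only [map_sub, map_mul, map_pow, aeval_X, aeval_C, eq_ratCast]
    linear_combination h
  have hint : IsIntegral ℚ t := ⟨P, hm, hz⟩
  refine ⟨IntermediateField.adjoin.finiteDimensional hint, ?_⟩
  rw [IntermediateField.adjoin.finrank hint, ← hd]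
  exact natDegree_le_of_dvd (minpoly.dvd ℚ t hz) hm.ne_zero

/-- The exponents. -/
def expG (F : IntermediateField ℚ ℂ) (β : ℂ) (hβ : β ≠ 0) : AddSubgroup ℤ where
  carrier := {j | β ^ j ∈ F}
  zero_mem' := by
    show β ^ (0 : ℤ) ∈ F
    rw [zpow_zero]
    exact one_mem F
  add_mem' := by
    intro a b ha hb
    show β ^ (a + b) ∈ F
    rw [zpow_add₀ hβ]
    exact mul_mem ha hb
  neg_mem' := by
    intro a ha
    show β ^ (-a) ∈ F
    rw [zpow_neg]
    exact inv_mem ha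

theorem mem_of_closure {F : IntermediateField ℚ ℂ} {β : ℂ} (hβ : β ≠ 0) {J : Set ℤ}
    (hJ : AddSubgroup.closure J = ⊤) (h : ∀ j ∈ J, β ^ j ∈ F) : β ∈ F := by
  have h1 : AddSubgroup.closure J ≤ expG F β hβ := by
    rw [AddSubgroup.closure_le]
    exact fun j hj => h j hj
  rw [hJ] at h1
  have h2 : (1 : ℤ) ∈ expG F β hβ := h1 (AddSubgroup.mem_top 1)
  have h3 : β ^ (1 : ℤ) ∈ F := h2
  rwa [zpow_one] at h3

/-! ### Transfer to matrices -/

section

variable {A : Matrix (Fin 2) (Fin 2) ℝ} {β : ℂ}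

theorem sq_neg_one (him : β.im ≠ 0) (hT : A.trace = 2 * β.re) (hD : A.det = Complex.normSq β) :
    ((β.im)⁻¹ • (A - β.re • (1 : Matrix (Fin 2) (Fin 2) ℝ))) *
      ((β.im)⁻¹ • (A - β.re • (1 : Matrix (Fin 2) (Fin 2) ℝ))) = -1 := by
  rw [Complex.normSq_apply] at hD
  rw [Matrix.trace_fin_two] at hT
  rw [Matrix.det_fin_two] at hD
  rw [Matrix.smul_mul, Matrix.mul_smul, smul_smul]
  have h1 : (A - β.re • (1 : Matrix (Fin 2) (Fin 2) ℝ)) * (A - β.re • 1) =
      (-(β.im * β.im)) • (1 : Matrix (Fin 2) (Fin 2) ℝ) := by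
    ext i j
    fin_cases i <;> fin_cases j <;> simp [Matrix.mul_apply, Fin.sum_univ_two]
    · linear_combination A 0 0 * hT - hD
    · linear_combination A 0 1 * hT
    · linear_combination A 1 0 * hT
    · linear_combination A 1 1 * hT - hD
  rw [h1, smul_smul]
  have h2 : (β.im)⁻¹ * (β.im)⁻¹ * -(β.im * β.im) = -1 := by
    field_simp
  rw [h2, neg_smul, one_smul]

/-- The algebra map from the complex numbers which maps `β` to `A`. -/
def Ph (him : β.im ≠ 0) (hT : A.trace = 2 * β.re) (hD : A.det = Complex.normSq β) :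
    ℂ →ₐ[ℝ] Matrix (Fin 2) (Fin 2) ℝ :=
  Complex.liftAux ((β.im)⁻¹ • (A - β.re • (1 : Matrix (Fin 2) (Fin 2) ℝ))) (sq_neg_one him hT hD)

theorem Ph_self (him : β.im ≠ 0) (hT : A.trace = 2 * β.re) (hD : A.det = Complex.normSq β) :
    Ph him hT hD β = A := by
  unfold Ph
  rw [Complex.liftAux_apply, smul_smul, mul_inv_cancel₀ him, one_smul, Algebra.algebraMap_eq_smul_one,
    add_sub_cancel]

theorem Ph_rat (him : β.im ≠ 0) (hT : A.trace = 2 * β.re) (hD : A.det = Complex.normSq β) (x : ℚ) :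
    Ph him hT hD (x : ℂ) = (x : ℝ) • (1 : Matrix (Fin 2) (Fin 2) ℝ) := by
  have h : (x : ℂ) = algebraMap ℝ ℂ (x : ℝ) := by simp
  rw [h, AlgHom.commutes, Algebra.algebraMap_eq_smul_one]

theorem Ph_zpow (him : β.im ≠ 0) (hT : A.trace = 2 * β.re) (hD : A.det = Complex.normSq β) (j : ℤ) :
    Ph him hT hD (β ^ j) = A ^ j := by
  have hβ : β ≠ 0 := by
    rintro rfl
    exact him Complex.zero_im
  obtain ⟨n, rfl | rfl⟩ := j.eq_nat_or_neg
  · rw [zpow_natCast, zpow_natCast, map_pow, Ph_self]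
  · rw [Matrix.zpow_neg_natCast]
    symm
    apply Matrix.inv_eq_left_inv
    have h1 : Ph him hT hD (β ^ (-(n : ℤ))) * Ph him hT hD (β ^ n) = 1 := by
      rw [← map_mul, zpow_neg, zpow_natCast, inv_mul_cancel₀ (pow_ne_zero n hβ), map_one]
    rw [map_pow, Ph_self] at h1
    exact h1

end

end Pool.Agent.Helper71.DG
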