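import Pool.Agent.Helper71.DG.Fld

/-!
# Project DG: the main theorem

Let `A` be an expansive real `2 × 2` matrix with non-real eigenvalues, no power of which is rational. If `(A, ℤ²)` has a
well-localized orthonormal wavelet (decay `N > 3`), then `A` satisfies a cubic equation over `ℚ`, or `A ^ c` and `A ^ d`
are rational combinations of `1` and `A ^ b` for distinct nonzero integers `b`, `c`, `d`.
-/

set_option autoImplicit false

open scoped Matrix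
open Pool.Agent.Helper71.TA Pool.Agent.Helper56.WV Wav

noncomputable section

namespace Pool.Agent.Helper71.DG

/-- Vectors of a triple of lattices which meet pairwise and have no common nonzero vector. -/
theorem extract {A : Matrix (Fin 2) (Fin 2) ℝ} (hA : A.det ≠ 0) {a b c : ℤ}
    (mab : Meet (Gam A) a b) (mac : Meet (Gam A) a c) (mbc : Meet (Gam A) b c)
    (m3 : ¬ Meet3 (Gam A) a b c) : ∃ x₁ y₁ x₂ y₂ p q : Fin 2 → ℤ,
      Aᵀ ^ (b - a) *ᵥ zc y₁ = zc x₁ ∧ Aᵀ ^ (c - a) *ᵥ zc y₂ = zc x₂ ∧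
      Aᵀ ^ (b - a) *ᵥ zc p = Aᵀ ^ (c - a) *ᵥ zc q ∧ y₁ ≠ 0 ∧ cr (zc y₂) (zc q) ≠ 0 := by
  set B := Aᵀ with hBdef
  have hB : B.det ≠ 0 := by rw [hBdef, Matrix.det_transpose]; exact hA
  have hu : IsUnit B.det := isUnit_iff_ne_zero.2 hB
  have hg : ∀ (j : ℤ) (x : Fin 2 → ℤ), act (B ^ j) (ivec x) ∈ Gam A j := fun j x => ⟨x, rfl⟩
  have hof : ∀ (j : ℤ) (x : Fin 2 → ℤ), (act (B ^ j) (ivec x)).ofLp = B ^ j *ᵥ zc x :=
    fun j x => rfl
  have pull : ∀ {i j : ℤ} {x y : Fin 2 → ℤ}, act (B ^ i) (ivec x) = act (B ^ j) (ivec y) →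
      B ^ i *ᵥ zc x = B ^ j *ᵥ zc y := by
    intro i j x y h
    rw [← hof, ← hof, h]
  have shift : ∀ {i j k : ℤ} {x y : Fin 2 → ℤ}, B ^ i *ᵥ zc x = B ^ j *ᵥ zc y →
      B ^ (i - k) *ᵥ zc x = B ^ (j - k) *ᵥ zc y := by
    intro i j k x y h
    have h1 : ∀ l, B ^ (l - k) = B ^ (-k) * B ^ l := by
      intro l
      rw [← Matrix.zpow_add hu]
      congr 1
      ring
    rw [h1, h1, ← Matrix.mulVec_mulVec, ← Matrix.mulVec_mulVec, h]
  have nz : ∀ {j : ℤ} {x : Fin 2 → ℤ}, act (B ^ j) (ivec x) ≠ 0 → x ≠ 0 := by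
    rintro j x h rfl
    apply h
    rw [ivec_zero, act_zero]
  have nz' : ∀ {j : ℤ} {x : Fin 2 → ℤ}, x ≠ 0 → act (B ^ j) (ivec x) ≠ 0 := by
    intro j x h h0
    apply h
    have h1 : B ^ j *ᵥ zc x = 0 := by rw [← hof, h0]; rfl
    have h2 : B ^ (-j) *ᵥ (B ^ j *ᵥ zc x) = zc x := by
      rw [Matrix.mulVec_mulVec, ← Matrix.zpow_add hu, neg_add_cancel, zpow_zero,
        Matrix.one_mulVec]
    rw [h1, Matrix.mulVec_zero] at h2
    ext i
    have := congrFun h2 i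
    simpa [zc] using this.symm
  have smul_act : ∀ (j m : ℤ) (x : Fin 2 → ℤ), act (B ^ j) (ivec (m • x)) =
      m • act (B ^ j) (ivec x) := by
    intro j m x
    have e : (act (B ^ j) (ivec (m • x))).ofLp = (m • act (B ^ j) (ivec x)).ofLp := by
      rw [hof, zc_smul, Matrix.mulVec_smul]
      ext i
      simp [← hof]
    exact (WithLp.ofLp_injective 2) e
  obtain ⟨v1, hv1, ⟨x1, hx1⟩, ⟨y1, hy1⟩⟩ := mab
  obtain ⟨v2, hv2, ⟨x2, hx2⟩, ⟨y2, hy2⟩⟩ := mac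
  obtain ⟨v3, hv3, ⟨p, hp⟩, ⟨q, hq⟩⟩ := mbc
  simp only at hx1 hy1 hx2 hy2 hp hq
  have hx1' : act (B ^ a) (ivec x1) = v1 := hx1
  have hy1' : act (B ^ b) (ivec y1) = v1 := hy1
  have hx2' : act (B ^ a) (ivec x2) = v2 := hx2
  have hy2' : act (B ^ c) (ivec y2) = v2 := hy2
  have hp' : act (B ^ b) (ivec p) = v3 := hp
  have hq' : act (B ^ c) (ivec q) = v3 := hq
  have e1 : B ^ (b - a) *ᵥ zc y1 = zc x1 := by
    have := shift (k := a) (pull (hy1'.trans hx1'.symm))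
    rwa [sub_self, zpow_zero, Matrix.one_mulVec] at this
  have e2 : B ^ (c - a) *ᵥ zc y2 = zc x2 := by
    have := shift (k := a) (pull (hy2'.trans hx2'.symm))
    rwa [sub_self, zpow_zero, Matrix.one_mulVec] at this
  have e3 : B ^ (b - a) *ᵥ zc p = B ^ (c - a) *ᵥ zc q :=
    shift (k := a) (pull (hp'.trans hq'.symm))
  have y1n : y1 ≠ 0 := nz (j := b) (by rw [hy1']; exact hv1)
  have y2n : y2 ≠ 0 := nz (j := c) (by rw [hy2']; exact hv2)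
  have qn : q ≠ 0 := nz (j := c) (by rw [hq']; exact hv3)
  have hyq : cr (zc y2) (zc q) ≠ 0 := by
    intro h0
    obtain ⟨m, n, hm, hn, hmn⟩ := common y2n qn h0
    apply m3
    refine ⟨act (B ^ c) (ivec (m • y2)), ?_, ?_, ?_, hg _ _⟩
    · refine nz' ?_
      exact smul_ne_zero hm y2n
    · rw [smul_act, hy2', ← hx2', ← smul_act]
      exact hg _ _
    · rw [hmn, smul_act, hq', ← hp', ← smul_act]
      exact hg _ _
  exact ⟨x1, y1, x2, y2, p, q, e1, e2, e3, y1n, hyq⟩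

/-- The exponents. -/
theorem exps_vec {A : Matrix (Fin 2) (Fin 2) ℝ} {j : ℤ} (h : j ∈ WavN.Exps A) :
    ∃ x y : Fin 2 → ℤ, x ≠ 0 ∧ zc x = Aᵀ ^ j *ᵥ zc y := by
  obtain ⟨v, hv, ⟨x, hx⟩, ⟨y, hy⟩⟩ := h
  have hof : ∀ (j : ℤ) (x : Fin 2 → ℤ), (act (Aᵀ ^ j) (ivec x)).ofLp = Aᵀ ^ j *ᵥ zc x :=
    fun j x => rfl
  refine ⟨x, y, ?_, ?_⟩
  · rintro rfl
    apply hv
    rw [← hx]
    simp only
    rw [ivec_zero, act_zero]
  · have h1 : act (Aᵀ ^ (0 : ℤ)) (ivec x) = act (Aᵀ ^ j) (ivec y) := hx.trans hy.symm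
    have h2 : Aᵀ ^ (0 : ℤ) *ᵥ zc x = Aᵀ ^ j *ᵥ zc y := by rw [← hof, ← hof, h1]
    rwa [zpow_zero, Matrix.one_mulVec] at h2

/-- **Main theorem.** -/
theorem degree_of_wavelet {A : Matrix (Fin 2) (Fin 2) ℝ} (hA : Expansive A)
    (hnr : A.trace ^ 2 < 4 * A.det) (hr : ¬ Pool.Agent.Helper54.WavS.HasRationalPower A) {N : ℝ}
    (hN : (3 : ℝ) < N) (hW : WavN.HasWavelet N A) :
    (∃ v w u : ℚ, A ^ 3 + (v : ℝ) • A ^ 2 + (w : ℝ) • A = (u : ℝ) • (1 : Matrix (Fin 2) (Fin 2) ℝ)) ∨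
    ∃ b c d : ℤ, b ≠ 0 ∧ c ≠ 0 ∧ d ≠ 0 ∧ b ≠ c ∧ b ≠ d ∧ c ≠ d ∧ ∃ x y x' y' : ℚ,
      A ^ c = (x : ℝ) • (1 : Matrix (Fin 2) (Fin 2) ℝ) + (y : ℝ) • A ^ b ∧
      A ^ d = (x' : ℝ) • (1 : Matrix (Fin 2) (Fin 2) ℝ) + (y' : ℝ) • A ^ b := by
  have hdet := expansive_det hA
  obtain ⟨β, him0, hT, hD⟩ := Pool.Agent.Helper56.FU.exists_eig A hnr
  have him := him0.ne'
  have hβ0 : β ≠ 0 := by
    rintro rfl
    exact him Complex.zero_im
  have hB : (Aᵀ).det ≠ 0 := by rw [Matrix.det_transpose]; exact hdet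
  have hq : β ^ 2 = ((Aᵀ).trace : ℂ) * β - ((Aᵀ).det : ℂ) := by
    rw [Matrix.det_transpose, Matrix.trace_transpose]
    exact Pool.Agent.Helper56.FU.quad hT hD
  -- no power of `β` is rational
  have hβ : ∀ j : ℤ, j ≠ 0 → ∀ ρ : ℚ, β ^ j ≠ (ρ : ℂ) := by
    intro j hj ρ h
    have h1 : A ^ j = (ρ : ℝ) • (1 : Matrix (Fin 2) (Fin 2) ℝ) := by
      rw [← Ph_zpow him hT hD, h, Ph_rat]
    refine ratM_pow hdet hr j hj (ratM_of fun i k => ?_)
    have h2 : Aᵀ ^ j = (ρ : ℝ) • (1 : Matrix (Fin 2) (Fin 2) ℝ) := by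
      have h3 : Aᵀ ^ j = (A ^ j)ᵀ := by
        obtain ⟨n, rfl | rfl⟩ := j.eq_nat_or_neg
        · rw [zpow_natCast, zpow_natCast, Matrix.transpose_pow]
        · rw [Matrix.zpow_neg_natCast, Matrix.zpow_neg_natCast, Matrix.transpose_nonsing_inv,
            Matrix.transpose_pow]
      rw [h3, h1, Matrix.transpose_smul, Matrix.transpose_one]
    rw [h2]
    by_cases hik : i = k
    · subst hik
      exact ⟨ρ, by simp⟩
    · exact ⟨0, by simp [hik]⟩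
  obtain ⟨a, b, c, d, hab, hac, had, hbc, hbd, hcd, mab, mac, mad, mbc, mbd, -, m1, m2, -⟩ :=
    tetra_of_two hA hr hN hW
  obtain ⟨x₁, y₁, x₂, y₂, p, q, e₁, e₂, e₃, hy₁, hyq⟩ := extract hdet mab mac mbc m1
  obtain ⟨x₁', y₁', x₂', y₂', p', q', e₁', e₂', e₃', hy₁', hyq'⟩ := extract hdet mab mad mbd m2
  have hba : b - a ≠ 0 := sub_ne_zero.2 hab.symm
  have k1 := core hq him hB hβ hba e₁ e₂ e₃ hy₁ hyq
  have k2 := core hq him hB hβ hba e₁' e₂' e₃' hy₁' hyq'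
  have hcub : (∃ r₀ r₁ r₂ : ℚ, (β ^ (b - a)) ^ 3 =
      (r₀ : ℂ) + (r₁ : ℂ) * β ^ (b - a) + (r₂ : ℂ) * (β ^ (b - a)) ^ 2) →
      ∃ v w u : ℚ, A ^ 3 + (v : ℝ) • A ^ 2 + (w : ℝ) • A =
        (u : ℝ) • (1 : Matrix (Fin 2) (Fin 2) ℝ) := by
    rintro ⟨r₀, r₁, r₂, h3⟩
    obtain ⟨hfd, hfr⟩ := adjoin_le h3
    have htF : β ^ (b - a) ∈ IntermediateField.adjoin ℚ {β ^ (b - a)} :=
      IntermediateField.mem_adjoin_simple_self ℚ _
    have hrat : ∀ x : ℚ, (x : ℂ) ∈ IntermediateField.adjoin ℚ {β ^ (b - a)} := by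
      intro x
      have := (IntermediateField.adjoin ℚ {β ^ (b - a)}).algebraMap_mem x
      rwa [eq_ratCast] at this
    obtain ⟨-, hco⟩ := coord hq him hB hβ hba e₁ hy₁
    have hv : ph Aᵀ β (zc y₁) ≠ 0 := ph_ne hq him (zc_ne hy₁)
    have hmem : β ∈ IntermediateField.adjoin ℚ {β ^ (b - a)} := by
      refine mem_of_closure hβ0 (J := WavN.Exps A)
        (WavN.exps_closure (le_refl 2) hA (by norm_num; linarith) hW) ?_
      intro j hj
      obtain ⟨x, y, hx, hxy⟩ := exps_vec hj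
      obtain ⟨α, α', -, ka⟩ := hco x
      obtain ⟨κ, κ', -, kk⟩ := hco y
      have h4 : ph Aᵀ β (zc x) = β ^ j * ph Aᵀ β (zc y) := by rw [hxy, ph_zpow hq him hB]
      have hxn : ph Aᵀ β (zc x) ≠ 0 := ph_ne hq him (zc_ne hx)
      rw [ka, kk] at h4
      rw [ka] at hxn
      have h5 : (α : ℂ) + α' * β ^ (b - a) = β ^ j * ((κ : ℂ) + κ' * β ^ (b - a)) := by
        apply mul_left_cancel₀ hv
        linear_combination h4
      have h6 : ((κ : ℂ) + κ' * β ^ (b - a)) ≠ 0 := by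
        intro h0
        rw [h0, mul_zero] at h5
        rw [h5, mul_zero] at hxn
        exact hxn rfl
      have h7 : β ^ j = ((α : ℂ) + α' * β ^ (b - a)) / ((κ : ℂ) + κ' * β ^ (b - a)) := by
        rw [eq_div_iff h6]
        exact h5.symm
      rw [h7]
      exact div_mem (add_mem (hrat α) (mul_mem (hrat α') htF))
        (add_mem (hrat κ) (mul_mem (hrat κ') htF))
    obtain ⟨v, w, u, h⟩ := cubic_of_mem hfr hmem
    refine ⟨v, w, u, ?_⟩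
    have h8 := congrArg (Ph him hT hD) h
    rw [map_add, map_add, map_mul, map_mul, map_pow, map_pow, Ph_self, Ph_rat, Ph_rat, Ph_rat,
      Matrix.smul_mul, Matrix.smul_mul, Matrix.one_mul, Matrix.one_mul] at h8
    exact h8
  rcases k1 with k1 | ⟨s₀, s₁, k1⟩
  · exact Or.inl (hcub k1)
  rcases k2 with k2 | ⟨s₀', s₁', k2⟩
  · exact Or.inl (hcub k2)
  right
  have tr : ∀ (j : ℤ) (x y : ℚ), β ^ j = (x : ℂ) + (y : ℂ) * β ^ (b - a) →
      A ^ j = (x : ℝ) • (1 : Matrix (Fin 2) (Fin 2) ℝ) + (y : ℝ) • A ^ (b - a) := by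
    intro j x y h
    have h8 := congrArg (Ph him hT hD) h
    rw [map_add, map_mul, Ph_zpow, Ph_zpow, Ph_rat, Ph_rat, Matrix.smul_mul, Matrix.one_mul] at h8
    exact h8
  exact ⟨b - a, c - a, d - a, hba, sub_ne_zero.2 hac.symm, sub_ne_zero.2 had.symm,
    fun h => hbc (by linarith), fun h => hbd (by linarith), fun h => hcd (by linarith),
    s₀, s₁, s₀', s₁', tr _ _ _ k1, tr _ _ _ k2⟩

end Pool.Agent.Helper71.DG
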